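import Pool.Agent.MP_ee8c61_ag.H10.Res

/-! Relative log canonical thresholds over an open part of the blow-up are roots, with
multiplicity. -/

namespace Pool.Agent.MP_ee8c61_ag.R3RT

open H10 MeasureTheory Set Filter Topology Complex Metric ComplexConjugate

/-- The local part of the definition of a resolution. -/
def IsLoc {σ κ D Y : Type} [Fintype σ] [Fintype κ] [TopologicalSpace Y]
    (f : κ → MvPolynomial σ ℂ) (π : Y → σ → ℂ) (β : Y → Projectivization ℂ (κ → ℂ))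
    (E : D → Set Y) (a k : D → ℕ) : Prop :=
  Continuous π ∧ InjOn π (⋃ i, E i)ᶜ ∧ (∀ i, 0 < a i) ∧
    ∀ y, ∃ (ψ : (σ → ℂ) → Y) (I : Finset D) (e : D → σ) (u : (σ → ℂ) → κ → ℂ) (v : (σ → ℂ) → ℂ),
      ψ 0 = y ∧ map ψ (𝓝 0) = 𝓝 y ∧ (∃ U ∈ 𝓝 0, ∃ M : ℕ, ∀ z, (U ∩ ψ ⁻¹' {z}).encard ≤ M) ∧
      InjOn e I ∧ AnalyticAt ℂ (π ∘ ψ) 0 ∧ AnalyticAt ℂ u 0 ∧ AnalyticAt ℂ v 0 ∧ v 0 ≠ 0 ∧
      ∀ᶠ τ in 𝓝 0, (∀ i, ψ τ ∈ E i ↔ i ∈ I ∧ τ (e i) = 0) ∧
        (fderiv ℂ (π ∘ ψ) τ).det = (∏ i ∈ I, τ (e i) ^ k i) * v τ ∧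
        (∀ j, MvPolynomial.eval (π (ψ τ)) (f j) = (∏ i ∈ I, τ (e i) ^ a i) * u τ j) ∧
        ∃ h : u τ ≠ 0, β (ψ τ) = Projectivization.mk ℂ (u τ) h

theorem root_dvd {σ κ D Y : Type} [Fintype σ] [Fintype κ] [TopologicalSpace Y] [T2Space Y]
    [WeaklyLocallyCompactSpace Y]
    (f : κ → MvPolynomial σ ℂ) (b : Polynomial ℂ) (hb : IsBS f b) (π : Y → σ → ℂ)
    (β : Y → Projectivization ℂ (κ → ℂ)) (E : D → Set Y) (a k : D → ℕ) (hR : IsLoc f π β E a k)
    (x : Y) {C₀ : Set Y} (hC₀ : IsCompact C₀) (hΦ₀ : ∀ y, π y = π x → β y = β x → y ∈ C₀)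
    (c : ℝ) (R : Finset D) (h1 : ∀ i ∈ R, x ∈ E i ∧ (k i + 1 : ℝ) = c * a i)
    (h2 : ∀ j, (E j ∩ fibre π β x).Nonempty → c * a j ≤ k j + 1) :
    (Polynomial.X - Polynomial.C (-c : ℂ)) ^ R.card ∣ b := by
  classical
  obtain ⟨cπ, hinj, ha, hch⟩ := hR
  choose ψ I e u v ψ0 ψm ψM he aφ au av v0 hev using hch
  let w : Y → κ → ℂ := fun y => (β y).rep
  obtain ⟨j0, hj0⟩ : ∃ j, w x j ≠ 0 := Function.ne_iff.1 (β x).rep_nonzero
  let t : Y → κ → ℂ := fun y j => w y j / w y j0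
  have pull : ∀ y {P : Y → Prop}, (∀ᶠ z in 𝓝 y, P z) ↔ ∀ᶠ τ in 𝓝 0, P (ψ y τ) := fun y P => by
    rw [← ψm y, eventually_map]
  have hw : ∀ y, ∀ᶠ τ in 𝓝 0, ∃ l : ℂ, l ≠ 0 ∧ ∀ j, w (ψ y τ) j = l * u y τ j := fun y =>
    (hev y).mono fun τ h => by
      obtain ⟨h0, e⟩ := h.2.2.2
      obtain ⟨l, hl⟩ := Projectivization.exists_smul_eq_mk_rep ℂ _ h0
      exact ⟨l, l.ne_zero, fun j => by simp only [w, e, ← hl]; rfl⟩
  have hw0 : ∀ y, ∃ l : ℂ, l ≠ 0 ∧ ∀ j, w y j = l * u y 0 j := fun y => by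
    simpa only [ψ0] using (hw y).self_of_nhds
  have au' : ∀ y j, AnalyticAt ℂ (fun τ => u y τ j) 0 := fun y j =>
    (((ContinuousLinearMap.proj (R := ℂ) (φ := fun _ : κ => ℂ) j).analyticAt _).comp (au y) :)
  let V : Set Y := {y | w y j0 ≠ 0}
  have uV : ∀ y ∈ V, u y 0 j0 ≠ 0 := fun y hy => by
    obtain ⟨l, -, hl⟩ := hw0 y
    exact fun h => hy (by rw [hl, h, mul_zero])
  have tV : ∀ y ∈ V, ∀ᶠ τ in 𝓝 0, ψ y τ ∈ V ∧ ∀ j, t (ψ y τ) j = u y τ j / u y τ j0 := fun y hy => by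
    filter_upwards [hw y, (au' y j0).continuousAt.eventually_ne (uV y hy)] with τ ⟨l, l0, hl⟩ h
    exact ⟨by simpa [V, hl] using ⟨l0, h⟩, fun j => by simp only [t, hl, mul_div_mul_left _ _ l0]⟩
  have ct : ∀ y ∈ V, ∀ j, ContinuousAt (fun y => t y j) y := fun y hy j => by
    have h := (tV y hy).self_of_nhds.2 j
    rw [ψ0] at h
    rw [ContinuousAt, h, ← ψm y, tendsto_map'_iff]
    exact (((au' y j).continuousAt.div (au' y j0).continuousAt (uV y hy)).tendsto).congr'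
      ((tV y hy).mono fun τ h => (h.2 j).symm)
  have xI : ∀ y i, y ∈ E i ↔ i ∈ I y := fun y i => by
    simpa [ψ0] using (hev y).self_of_nhds.1 i
  let F : (σ → ℂ) → ℂ := fun z => MvPolynomial.eval z (f j0)
  have cF : Continuous F := MvPolynomial.continuous_eval _
  have hF : ∀ y, F (π y) ≠ 0 → I y = ∅ ∧ y ∈ V ∧
      ∀ j, MvPolynomial.eval (π y) (f j) / F (π y) = t y j := fun y hy => by
    have h := (hev y).self_of_nhds.2.2.1
    simp only [ψ0] at h
    simp only [F, h, mul_ne_zero_iff] at hy ⊢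
    obtain ⟨l, l0, hl⟩ := hw0 y
    refine ⟨Finset.eq_empty_of_forall_notMem fun i hi => hy.1 (Finset.prod_eq_zero hi
      (zero_pow (ha i).ne')), by simpa [V, hl] using ⟨l0, hy.2⟩, fun j => ?_⟩
    simp only [t, hl, mul_div_mul_left _ _ l0, mul_div_mul_left _ _ hy.1]
  let Φ : Set Y := {y | π y = π x ∧ β y = β x}
  have hΦ : ∀ y, β y = β x ↔ ∀ j, w y j * w x j0 = w y j0 * w x j := fun y =>
    ⟨fun h j => by simp only [w, h, mul_comm], fun h => by
      rw [← (β y).mk_rep, ← (β x).mk_rep, Projectivization.mk_eq_mk_iff']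
      refine ⟨w y j0 / w x j0, funext fun j => ?_⟩
      change w y j0 / w x j0 * w x j = w y j
      field_simp
      linear_combination - h j⟩
  have cΦ : IsCompact Φ := by
    refine hC₀.of_isClosed_subset ((isClosed_eq cπ continuous_const).inter (s₂ := {y | β y = β x})
      (isOpen_compl_iff.1 (isOpen_iff_mem_nhds.2 fun y hy => (pull y).2 ?_)))
      fun y hy => hΦ₀ y hy.1 hy.2
    obtain ⟨j, hj⟩ := not_forall.1 (mt (hΦ y).2 hy)
    obtain ⟨l, -, hl⟩ := hw0 y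
    filter_upwards [hw y, (((au' y j).continuousAt.mul (continuousAt_const (y := w x j0))).sub
      ((au' y j0).continuousAt.mul (continuousAt_const (y := w x j)))).eventually_ne (y := 0)
      fun h => hj (by
        simp only [Pi.sub_apply, Pi.mul_apply] at h
        rw [hl, hl]; linear_combination l * h)] with τ ⟨l', l0, hl'⟩ h h'
    have := (hΦ _).1 h' j
    rw [hl', hl'] at this
    refine h (mul_left_cancel₀ l0 ?_)
    simp only [Pi.sub_apply, Pi.mul_apply]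
    linear_combination this
  let H : Y → σ ⊕ κ → ℂ := fun y => Sum.elim (π y - π x) (t y - t x)
  let ρ : Y → ℝ := fun y => ∑ v, ‖H y v‖ ^ 2
  have cρ : ∀ y ∈ V, ContinuousAt ρ y := fun y hy => tendsto_finsetSum _ fun v _ => by
    refine ContinuousAt.pow (ContinuousAt.norm ?_) 2
    rcases v with i | j
    exacts [(((continuous_apply i).comp cπ).continuousAt.sub continuousAt_const :),
      ((ct y hy j).sub continuousAt_const :)]
  have ρ0 : ∀ y, 0 ≤ ρ y := fun y => by positivity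
  have ρp : ∀ y ∈ V, y ∉ Φ → 0 < ρ y := fun y hy hy' => (ρ0 y).lt_of_ne' fun h => hy' <| by
    rw [Finset.sum_eq_zero_iff_of_nonneg fun _ _ => by positivity] at h
    simp only [Finset.mem_univ, forall_const, pow_eq_zero_iff two_ne_zero, norm_eq_zero] at h
    refine ⟨funext fun i => sub_eq_zero.1 (h (Sum.inl i)), (hΦ y).2 fun j => ?_⟩
    have : w y j / w y j0 = w x j / w x j0 := sub_eq_zero.1 (h (Sum.inr j))
    rw [(div_eq_div_iff hy hj0).1 this, mul_comm]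
  obtain ⟨K, hK, KW, xK, KΦ⟩ := nbhd (W := {y | y ∈ V ∧ ∀ j, y ∈ E j → c * a j ≤ k j + 1}) cΦ
    (isOpen_iff_mem_nhds.2 fun y hy => (pull y).2 (by
      filter_upwards [tV y hy.1, hev y] with τ k1 k2
      exact ⟨k1.1, fun j hj => hy.2 j ((xI y j).2 ((k2.1 j).1 hj).1)⟩)) (x := x) ⟨rfl, rfl⟩
    fun y hy => ⟨by simpa only [V, w, mem_setOf, (connectedComponentIn_subset _ _ hy).2] using hj0,
      fun j hj => h2 j ⟨y, hj, hy⟩⟩
  obtain ⟨ε, ε0, hε⟩ := (hK.diff isOpen_interior).exists_forall_le'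
    (fun y hy => (cρ y (KW hy.1).1).continuousWithinAt)
    fun y hy => ρp y (KW hy.1).1 fun h => hy.2 (KΦ ⟨hy.1, h⟩)
  let S : ℝ → Set Y := fun η => {y | y ∈ interior K ∧ ρ y < η ∧ F (π y) ≠ 0}
  have oS : ∀ η, IsOpen (π '' S η) := fun η => isOpen_iff_mem_nhds.2 <| by
    rintro _ ⟨y, hy, rfl⟩
    have k1 : ∀ᶠ z in 𝓝 y, z ∈ S η := (isOpen_interior.eventually_mem hy.1).and
      (((cρ y (hF y hy.2.2).2.1).eventually_lt_const hy.2.1).and
        ((cF.comp cπ).continuousAt.eventually_ne hy.2.2))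
    have k2 : (fderiv ℂ (π ∘ ψ y) 0).det ≠ 0 := by
      simpa [(hev y).self_of_nhds.2.1, (hF y hy.2.2).1] using v0 y
    have k3 := HasStrictFDerivAt.map_nhds_eq_of_equiv
      (f' := (fderiv ℂ (π ∘ ψ y) 0).toContinuousLinearEquivOfDetNeZero k2) (aφ y).hasStrictFDerivAt
    rw [← map_map, ψm, Function.comp_apply, ψ0] at k3
    exact k3 ▸ image_mem_map k1
  have SK : ∀ η, S η ⊆ K := fun η y hy => interior_subset hy.1
  let g : σ ⊕ κ → MvPolynomial σ ℂ := Sum.elim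
    (fun i => (MvPolynomial.X i - MvPolynomial.C (π x i)) * f j0)
    fun j => f j - MvPolynomial.C (t x j) * f j0
  have fI : ∀ j, f j ∈ Ideal.span (range f) := fun j => Ideal.subset_span ⟨j, rfl⟩
  obtain ⟨q, hq⟩ : ∃ q : (σ → ℂ) → ℂ, q = fun z => (ε : ℂ) - ∑ v, MvPolynomial.eval z (g v) / F z *
    conj (MvPolynomial.eval z (g v) / F z) := ⟨_, rfl⟩
  have eq : ∀ y, F (π y) ≠ 0 → q (π y) = (ε - ρ y : ℝ) := fun y hy => by
    have : ∀ v, MvPolynomial.eval (π y) (g v) / F (π y) = H y v := by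
      rintro (i | j)
      · simp only [g, H, Sum.elim_inl, map_mul, map_sub, MvPolynomial.eval_X, MvPolynomial.eval_C]
        exact mul_div_cancel_right₀ _ hy
      · simp only [g, H, Sum.elim_inr, map_mul, map_sub, MvPolynomial.eval_C, sub_div,
          (hF y hy).2.2]
        exact congrArg _ (mul_div_cancel_right₀ _ hy)
    simp only [hq, this, mul_conj, normSq_eq_norm_sq, ρ, ofReal_sub, ofReal_sum]
  have lc := fun y (hy : y ∈ K) => loc (I y) (e y) (he y) a k ha (F := F) (aφ y) (au' y j0) (av y)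
    (uV y (KW hy).1) (v0 y) ((hev y).mono fun τ h => ⟨h.2.1, h.2.2.1 j0⟩) c
    fun i hi => (KW hy).2 i ((xI y i).2 hi)
  have hint : ∀ η s, -c < s → IntegrableOn (fun z => ‖F z‖ ^ (2 * s)) (π '' S η) := fun η s hs => by
    refine IntegrableOn.mono_set (hK.induction_on (p := fun A => IntegrableOn
      (fun z => ‖F z‖ ^ (2 * s)) (π '' (A ∩ {y | F (π y) ≠ 0})) volume) (by simp)
      (fun A A' h h' => h'.mono_set (image_mono (inter_subset_inter_left _ h)))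
      (fun A A' h h' => by rw [union_inter_distrib_right, image_union]; exact h.union h')
      fun y hy => ?_) (image_mono fun y hy => mem_inter (SK η hy) hy.2.2)
    obtain ⟨U, hU, h⟩ := (lc y hy).1 s hs
    refine ⟨ψ y '' U, nhdsWithin_le_nhds (ψm y ▸ image_mem_map hU), h.mono_set ?_⟩
    rintro _ ⟨_, ⟨⟨τ, hτ, rfl⟩, h'⟩, rfl⟩
    exact ⟨τ, ⟨hτ, h'⟩, rfl⟩
  have F0 : ∀ z ∈ π '' S ε, F z ≠ 0 := by
    rintro _ ⟨y, hy, rfl⟩
    exact hy.2.2
  obtain ⟨n, T, hT, hZ⟩ := arch f b hb (hK.image cπ) (oS ε) (image_mono (SK ε)) (f j0) (fI j0) F rfl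
    F0 (fun j => by
      obtain ⟨C, hC⟩ := hK.exists_bound_of_continuousOn
        fun y hy => (ct y (KW hy).1 j).continuousWithinAt
      refine ⟨C, ?_⟩
      rintro _ ⟨y, hy, rfl⟩
      exact (hF y hy.2.2).2.2 j ▸ hC y (SK ε hy)) g (by
      rintro (i | j)
      exacts [Ideal.mul_mem_left _ _ (fI _), sub_mem (fI _) (Ideal.mul_mem_left _ _ (fI _))])
    ε q hq (fun z hz hz' h0 => by
      obtain ⟨y, hy, rfl⟩ := closure_minimal (image_mono subset_closure)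
        ((hK.closure_of_subset (SK ε)).image cπ).isClosed hz
      have k1 : ρ y ≤ ε := ContinuousWithinAt.closure_le hy
        (cρ y (hF y h0).2.1).continuousWithinAt continuousWithinAt_const fun y hy => hy.2.1.le
      have k2 : ε ≤ ρ y := not_lt.1 fun h => hz' ⟨y, ⟨not_not.1 fun h' => not_le.2 h (hε y
        ⟨closure_minimal (SK ε) hK.isClosed hy, h'⟩), h, h0⟩, rfl⟩
      rw [eq y h0, le_antisymm k1 k2, sub_self, ofReal_zero]) c (hint ε)
  obtain ⟨U, hU, M, hM⟩ := ψM x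
  obtain ⟨m, m1, m2, m3⟩ := (lc x (interior_subset xK)).2
    (U ∩ {τ | ψ x τ ∈ interior K ∧ ρ (ψ x τ) < ε / 2}) (inter_mem hU ((pull x).1
      ((isOpen_interior.eventually_mem xK).and ((cρ x hj0).eventually_lt_const (by
        simpa [ρ, H] using ε0))))) M _ (oS (ε / 2)).measurableSet
    (by
      rintro _ ⟨τ, hτ, rfl⟩
      exact ⟨_, ⟨hτ.1.2.1, hτ.1.2.2, hτ.2⟩, rfl⟩)
    (fun z => by
      rcases (U ∩ {τ | ψ x τ ∈ interior K ∧ ρ (ψ x τ) < ε / 2} ∩ {τ | F ((π ∘ ψ x) τ) ≠ 0} ∩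
        (π ∘ ψ x) ⁻¹' {z}).eq_empty_or_nonempty with h | ⟨τ₀, h⟩
      · rw [h]; simp
      have k1 : ∀ y, F (π y) ≠ 0 → y ∈ (⋃ i, E i)ᶜ := fun y hy => by simp [xI, (hF y hy).1]
      exact le_trans (encard_le_encard fun τ hτ => mem_inter hτ.1.1.1
        (hinj (k1 _ hτ.1.2) (k1 _ h.1.2) (hτ.2.trans h.2.symm))) (hM (ψ x τ₀)))
    (hint _) R (fun i hi => (xI x i).1 (h1 i hi).1) fun i hi => (h1 i hi).2
  have mB := (oS ε).measurableSet
  have cq : ContinuousOn q (π '' S ε) := hq ▸ continuousOn_const.sub (continuousOn_finsetSum _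
    fun v _ => by
      have := (MvPolynomial.continuous_eval (g v)).continuousOn.div cF.continuousOn F0
      exact this.mul (continuous_conj.comp_continuousOn this))
  have rq : ∀ z ∈ π '' S ε, q z = (q z).re ∧ 0 ≤ (q z).re ∧ (q z).re ≤ ε := by
    rintro _ ⟨y, hy, rfl⟩
    rw [eq y hy.2.2, ofReal_re]
    exact ⟨rfl, by linarith [hy.2.1], by linarith [ρ0 y]⟩
  refine dvd_of_pole b c _ T (fun s => ∫ z in π '' S ε, ‖F z‖ ^ (2 * s) * (q z).re ^ n)
    (fun s => m s * (ε / 2) ^ n) hT (m1.mul continuousAt_const) (by positivity) ?_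
  filter_upwards [m3, self_mem_nhdsWithin] with s k1 hs
  have hs0 : 0 < s + c := by linarith [mem_Ioi.1 hs]
  refine ⟨?_, (mul_le_mul_of_nonneg_right k1 (by positivity)).trans ?_⟩
  · rw [← hZ s hs, ← integral_complex_ofReal]
    refine congrArg _ (setIntegral_congr_fun mB fun z hz => ?_)
    simp only [ofReal_mul, ofReal_pow, ← (rq z hz).1]
  have i1 : IntegrableOn (fun z => ‖F z‖ ^ (2 * s) * (q z).re ^ n) (π '' S ε) :=
    (hint ε s hs).mul_bdd (c := ε ^ n)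
      (((continuous_re.comp_continuousOn cq).pow n).aestronglyMeasurable mB)
      ((ae_restrict_iff' mB).2 (ae_of_all _ fun z hz => by
        rw [norm_pow, Real.norm_of_nonneg (rq z hz).2.1]
        exact pow_le_pow_left₀ (rq z hz).2.1 (rq z hz).2.2 n))
  have sub : π '' S (ε / 2) ⊆ π '' S ε :=
    image_mono fun y hy => ⟨hy.1, hy.2.1.trans (half_lt_self ε0), hy.2.2⟩
  rw [mul_assoc, ← integral_mul_const]
  refine mul_le_mul_of_nonneg_left ((setIntegral_mono_on ((hint _ s hs).mul_const _)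
    (i1.mono_set sub) (oS _).measurableSet ?_).trans (setIntegral_mono_set i1
      ((ae_restrict_iff' mB).2 (ae_of_all _ fun z hz => by have := (rq z hz).2.1; positivity))
      sub.eventuallyLE)) (by positivity)
  rintro _ ⟨y, hy, rfl⟩
  rw [eq y hy.2.2, ofReal_re]
  gcongr
  linarith [hy.2.1]

end Pool.Agent.MP_ee8c61_ag.R3RT
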